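import Pool.Agent.Helper49.TP.StM

/-! Project TP, module P2a: the first half of the bipartite inequality. -/

set_option autoImplicit false

namespace Pool.Agent.Helper53.TP

open Finset Pool.Agent.Helper49.TP Pool.Agent.Helper93.IA Pool.Agent.Helper38.IA

/-- Module P2a. -/
theorem hP2a : StP2a := by
  intro α β _ _ _ _ n A g hn hα hβ h1 _
  classical
  have hn0 : (0 : ℝ) < n := by exact_mod_cast hn
  have hcardβ : (Finset.univ : Finset β).card = n := by rw [Finset.card_univ, hβ]
  let N : α → α → Finset β := fun a a' => univ.filter (fun b => (a, b) ∈ A ∧ (a', b) ∈ A)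
  let N3 : α → α → α → Finset β := fun a a' z =>
    univ.filter (fun b => (a, b) ∈ A ∧ (a', b) ∈ A ∧ (z, b) ∈ A)
  have hNc : ∀ a a', (n : ℝ) / 2 ≤ (N a a').card := by
    intro a a'
    have hsub : (univ : Finset β) ⊆ N a a' ∪ (univ.filter (fun b => (a, b) ∉ A) ∪
        univ.filter (fun b => (a', b) ∉ A)) := by
      intro b _
      simp only [N, mem_union, mem_filter, mem_univ, true_and]
      tauto
    have hc := (card_le_card hsub).trans ((card_union_le _ _).trans
      (Nat.add_le_add_left (card_union_le _ _) _))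
    rw [hcardβ] at hc
    have hc' : (n : ℝ) ≤ (N a a').card + ((univ.filter (fun b => (a, b) ∉ A)).card +
        (univ.filter (fun b => (a', b) ∉ A)).card : ℝ) := by exact_mod_cast hc
    have e1 : ((univ.filter (fun b => (a, b) ∉ A)).card : ℝ) ≤ n / 4 := h1 a
    have e2 : ((univ.filter (fun b => (a', b) ∉ A)).card : ℝ) ≤ n / 4 := h1 a'
    linarith
  have hN3c : ∀ a a' z, (n : ℝ) / 4 ≤ (N3 a a' z).card := by
    intro a a' z
    have hsub : (univ : Finset β) ⊆ N3 a a' z ∪ (univ.filter (fun b => (a, b) ∉ A) ∪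
        (univ.filter (fun b => (a', b) ∉ A) ∪ univ.filter (fun b => (z, b) ∉ A))) := by
      intro b _
      simp only [N3, mem_union, mem_filter, mem_univ, true_and]
      tauto
    have hc := (card_le_card hsub).trans ((card_union_le _ _).trans
      (Nat.add_le_add_left ((card_union_le _ _).trans
        (Nat.add_le_add_left (card_union_le _ _) _)) _))
    rw [hcardβ] at hc
    have hc' : (n : ℝ) ≤ (N3 a a' z).card + ((univ.filter (fun b => (a, b) ∉ A)).card +
        ((univ.filter (fun b => (a', b) ∉ A)).card +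
          (univ.filter (fun b => (z, b) ∉ A)).card : ℝ) : ℝ) := by exact_mod_cast hc
    have e1 : ((univ.filter (fun b => (a, b) ∉ A)).card : ℝ) ≤ n / 4 := h1 a
    have e2 : ((univ.filter (fun b => (a', b) ∉ A)).card : ℝ) ≤ n / 4 := h1 a'
    have e3 : ((univ.filter (fun b => (z, b) ∉ A)).card : ℝ) ≤ n / 4 := h1 z
    linarith
  -- averages
  let D : α → α → ℝ := fun a a' => (∑ b ∈ N a a', (g a b - g a' b)) / (N a a').card
  let e : α → α → β → ℝ := fun a a' b => |g a b - g a' b - D a a'|
  let E : α → α → β → ℝ := fun a a' b =>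
    if (a, b) ∈ A ∧ (a', b) ∈ A then e a a' b else 0
  have hE0 : ∀ a a' b, 0 ≤ E a a' b := by
    intro a a' b
    simp only [E]
    split_ifs
    · exact abs_nonneg _
    · exact le_rfl
  let S1 : ℝ := ∑ a, ∑ a', ∑ b, E a a' b
  -- first estimate
  have hE1 : ∀ a a' b, (n : ℝ) / 2 * E a a' b ≤ ∑ b', if (a, b) ∈ A ∧ (a', b) ∈ A ∧ (a, b') ∈ A ∧
      (a', b') ∈ A then |g a b - g a' b - g a b' + g a' b'| else 0 := by
    intro a a' b
    by_cases hb : (a, b) ∈ A ∧ (a', b) ∈ A
    · have hNpos : (0 : ℝ) < (N a a').card := lt_of_lt_of_le (by positivity) (hNc a a')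
      have hE : E a a' b = |g a b - g a' b - D a a'| := by simp only [E, e, hb, and_self, if_true]
      have hsum : ∑ b', (if (a, b) ∈ A ∧ (a', b) ∈ A ∧ (a, b') ∈ A ∧
          (a', b') ∈ A then |g a b - g a' b - g a b' + g a' b'| else 0) =
          ∑ b' ∈ N a a', |g a b - g a' b - g a b' + g a' b'| := by
        rw [Finset.sum_filter]
        refine Finset.sum_congr rfl fun b' _ => ?_
        simp only [hb.1, hb.2, true_and]
      rw [hsum, hE]
      have hD : ((N a a').card : ℝ) * (g a b - g a' b - D a a') =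
          ∑ b' ∈ N a a', (g a b - g a' b - g a b' + g a' b') := by
        have h3 : ((N a a').card : ℝ) * D a a' = ∑ b' ∈ N a a', (g a b' - g a' b') :=
          mul_div_cancel₀ _ hNpos.ne'
        have h4 : ∑ b' ∈ N a a', (g a b - g a' b - g a b' + g a' b') =
            ((N a a').card : ℝ) * (g a b - g a' b) - ∑ b' ∈ N a a', (g a b' - g a' b') := by
          rw [← nsmul_eq_mul, ← Finset.sum_const, ← Finset.sum_sub_distrib]
          refine Finset.sum_congr rfl fun b' _ => ?_
          ring
        rw [h4, ← h3]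
        ring
      calc (n : ℝ) / 2 * |g a b - g a' b - D a a'|
          ≤ ((N a a').card : ℝ) * |g a b - g a' b - D a a'| :=
            mul_le_mul_of_nonneg_right (hNc a a') (abs_nonneg _)
        _ = |((N a a').card : ℝ) * (g a b - g a' b - D a a')| := by
            rw [abs_mul, abs_of_pos hNpos]
        _ ≤ ∑ b' ∈ N a a', |g a b - g a' b - g a b' + g a' b'| := by
            rw [hD]
            exact Finset.abs_sum_le_sum_abs _ _
    · have hE : E a a' b = 0 := by simp only [E, if_neg hb]
      rw [hE, mul_zero]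
      refine Finset.sum_nonneg fun b' _ => ?_
      split_ifs
      · exact abs_nonneg _
      · exact le_rfl
  have hS1 : (n : ℝ) / 2 * S1 ≤ Q4 A g := by
    simp only [S1, Q4]
    rw [Finset.mul_sum]
    refine Finset.sum_le_sum fun a _ => ?_
    rw [Finset.mul_sum]
    refine Finset.sum_le_sum fun a' _ => ?_
    rw [Finset.mul_sum]
    exact Finset.sum_le_sum fun b _ => hE1 a a' b
  -- second estimate
  let Δ : α → α → α → ℝ := fun a a' z => |D a a' + D a' z - D a z|
  have hΔ : ∀ a a' z, (n : ℝ) / 4 * Δ a a' z ≤ ∑ b, E a a' b + ∑ b, E a' z b + ∑ b, E a z b := by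
    intro a a' z
    have h3 : ∑ b ∈ N3 a a' z, Δ a a' z ≤ ∑ b ∈ N3 a a' z, (E a a' b + E a' z b + E a z b) := by
      refine Finset.sum_le_sum fun b hb => ?_
      simp only [N3, mem_filter, mem_univ, true_and] at hb
      obtain ⟨b1, b2, b3⟩ := hb
      have k1 : E a a' b = |g a b - g a' b - D a a'| := by
        simp only [E, e, b1, b2, and_self, if_true]
      have k2 : E a' z b = |g a' b - g z b - D a' z| := by
        simp only [E, e, b2, b3, and_self, if_true]
      have k3 : E a z b = |g a b - g z b - D a z| := by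
        simp only [E, e, b1, b3, and_self, if_true]
      rw [k1, k2, k3]
      have : D a a' + D a' z - D a z = -(g a b - g a' b - D a a') + -(g a' b - g z b - D a' z) +
          (g a b - g z b - D a z) := by ring
      simp only [Δ]
      rw [this]
      refine (abs_add_le _ _).trans (add_le_add ((abs_add_le _ _).trans ?_) le_rfl)
      rw [abs_neg, abs_neg]
    rw [Finset.sum_const, nsmul_eq_mul] at h3
    have h4 : ∑ b ∈ N3 a a' z, (E a a' b + E a' z b + E a z b) ≤
        ∑ b, (E a a' b + E a' z b + E a z b) := by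
      refine Finset.sum_le_sum_of_subset_of_nonneg (Finset.subset_univ _) fun b _ _ => ?_
      have := hE0 a a' b
      have := hE0 a' z b
      have := hE0 a z b
      positivity
    have h5 : (n : ℝ) / 4 * Δ a a' z ≤ ((N3 a a' z).card : ℝ) * Δ a a' z :=
      mul_le_mul_of_nonneg_right (hN3c a a' z) (abs_nonneg _)
    refine h5.trans (h3.trans (h4.trans (le_of_eq ?_)))
    rw [Finset.sum_add_distrib, Finset.sum_add_distrib]
  have hcα : ((Finset.univ : Finset α).card : ℝ) = n := by
    rw [Finset.card_univ, hα]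
  have hΔsum : (n : ℝ) / 4 * ∑ z, ∑ a, ∑ a', Δ a a' z ≤ 3 * n * S1 := by
    have h3 : (n : ℝ) / 4 * ∑ z, ∑ a, ∑ a', Δ a a' z ≤
        ∑ z, ∑ a, ∑ a', (∑ b, E a a' b + ∑ b, E a' z b + ∑ b, E a z b) := by
      rw [Finset.mul_sum]
      refine Finset.sum_le_sum fun z _ => ?_
      rw [Finset.mul_sum]
      refine Finset.sum_le_sum fun a _ => ?_
      rw [Finset.mul_sum]
      exact Finset.sum_le_sum fun a' _ => hΔ a a' z
    refine h3.trans (le_of_eq ?_)
    simp only [Finset.sum_add_distrib]
    have q1 : ∑ _z : α, ∑ a, ∑ a', ∑ b, E a a' b = n * S1 := by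
      rw [Finset.sum_const, nsmul_eq_mul, hcα]
    have q2 : ∑ z, ∑ _a : α, ∑ a', ∑ b, E a' z b = n * S1 := by
      have : ∀ z, ∑ _a : α, ∑ a', ∑ b, E a' z b = n * ∑ a', ∑ b, E a' z b := by
        intro z
        rw [Finset.sum_const, nsmul_eq_mul, hcα]
      rw [Finset.sum_congr rfl fun z _ => this z, ← Finset.mul_sum]
      congr 1
      exact Finset.sum_comm
    have q3 : ∑ z, ∑ a, ∑ _a' : α, ∑ b, E a z b = n * S1 := by
      have : ∀ z, ∑ a, ∑ _a' : α, ∑ b, E a z b = n * ∑ a, ∑ b, E a z b := by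
        intro z
        rw [Finset.mul_sum]
        refine Finset.sum_congr rfl fun a _ => ?_
        rw [Finset.sum_const, nsmul_eq_mul, hcα]
      rw [Finset.sum_congr rfl fun z _ => this z, ← Finset.mul_sum]
      congr 1
      exact Finset.sum_comm
    rw [q1, q2, q3]
    ring
  have hne : (Finset.univ : Finset α).Nonempty := by
    rw [← Finset.card_pos, Finset.card_univ, hα]
    exact hn
  have hz : ∃ z ∈ (Finset.univ : Finset α), ∑ a, ∑ a', Δ a a' z ≤ 12 * S1 / n := by
    refine Finset.exists_le_of_sum_le hne ?_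
    rw [Finset.sum_const, nsmul_eq_mul, hcα]
    have h3 : ∑ z, ∑ a, ∑ a', Δ a a' z ≤ 12 * S1 := by
      have h4 : (n : ℝ) / 4 * ∑ z, ∑ a, ∑ a', Δ a a' z ≤ (n : ℝ) / 4 * (12 * S1) := by
        refine hΔsum.trans (le_of_eq ?_)
        ring
      exact le_of_mul_le_mul_left h4 (by positivity)
    refine h3.trans (le_of_eq ?_)
    field_simp
  obtain ⟨z, -, hz⟩ := hz
  refine ⟨fun a => D a z, ?_⟩
  have hfin : ∑ a, ∑ a', ∑ b, (if (a, b) ∈ A ∧ (a', b) ∈ A then
      |(g a b - D a z) - (g a' b - D a' z)| else 0) ≤ S1 + n * ∑ a, ∑ a', Δ a a' z := by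
    have h3 : ∀ a a' b, (if (a, b) ∈ A ∧ (a', b) ∈ A then
        |(g a b - D a z) - (g a' b - D a' z)| else 0) ≤ E a a' b + Δ a a' z := by
      intro a a' b
      by_cases hb : (a, b) ∈ A ∧ (a', b) ∈ A
      · have k1 : E a a' b = |g a b - g a' b - D a a'| := by
          simp only [E, e, hb, and_self, if_true]
        rw [if_pos hb, k1]
        have : (g a b - D a z) - (g a' b - D a' z) = (g a b - g a' b - D a a') +
            (D a a' + D a' z - D a z) := by ring
        rw [this]
        exact abs_add_le _ _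
      · rw [if_neg hb]
        exact add_nonneg (hE0 a a' b) (abs_nonneg _)
    have h4 : ∑ a, ∑ a', ∑ b, (if (a, b) ∈ A ∧ (a', b) ∈ A then
        |(g a b - D a z) - (g a' b - D a' z)| else 0) ≤
        ∑ a, ∑ a', ∑ b, (E a a' b + Δ a a' z) :=
      Finset.sum_le_sum fun a _ => Finset.sum_le_sum fun a' _ =>
        Finset.sum_le_sum fun b _ => h3 a a' b
    refine h4.trans (le_of_eq ?_)
    simp only [Finset.sum_add_distrib]
    congr 1
    rw [Finset.mul_sum]
    refine Finset.sum_congr rfl fun a _ => ?_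
    rw [Finset.mul_sum]
    refine Finset.sum_congr rfl fun a' _ => ?_
    rw [Finset.sum_const, nsmul_eq_mul, hcardβ]
  refine hfin.trans ?_
  have h5 : (n : ℝ) * ∑ a, ∑ a', Δ a a' z ≤ 12 * S1 := by
    have := mul_le_mul_of_nonneg_left hz hn0.le
    refine this.trans (le_of_eq ?_)
    field_simp
  have h6 : S1 ≤ 2 / n * Q4 A g := by
    have : 2 / (n : ℝ) * ((n : ℝ) / 2 * S1) ≤ 2 / n * Q4 A g :=
      mul_le_mul_of_nonneg_left hS1 (by positivity)
    refine le_trans (le_of_eq ?_) this
    field_simp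
  have h7 : S1 + n * ∑ a, ∑ a', Δ a a' z ≤ 13 * (2 / n * Q4 A g) := by linarith
  refine h7.trans (le_of_eq ?_)
  ring

end Pool.Agent.Helper53.TP
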